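import Mathlib

/-!
# Congruences for `2^m`-coloured binary partitions modulo powers of `2`

Write `G = ∏_{i ≥ 0} (1 - x^(2^i))^(-t)` with `t = 2^m`, so `(1-x)^t G(x) = G(x^2)`, and let `U` keep
the even-indexed coefficients. With `y = 1/(1-x)`, `z = x/(1-x)^2` one has
`(1-x)^t U^k G = G Q_k` where `Q_0 = (1-x)^t`, `Q_{k+1} = U ((1+4z)^(t/2) Q_k)`.
The ring `K = ℤ[2y, 2z]` satisfies `U (z K) ⊆ 2 z K`, and all `Q_k` lie in
`ℤ[x] + 2^(m+1) ℤ y + 2^(m+2) z K`, the polynomial part being constant for `k > m`.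
This gives `Q_{k+1} - Q_k ∈ 2^(k+1) z K` for `k > m`.
-/

open PowerSeries

namespace Pool.Agent.Results.MP_06821b_nt.Full

/-- The number of ordered `m`-tuples of binary partitions (finite multisets of powers of two)
whose sizes (sums) add up to `n`; equivalently the number of binary partitions of `n` in which
each element carries one of `m` colours. This is `b_m(n)`, the coefficient of `x^n` in
`∏_{i ≥ 0} (1 - x^(2^i))^(-m)`. -/
noncomputable def colouredBinary (m n : ℕ) : ℕ :=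
  Nat.card {s : Fin m → Multiset ℕ //
    (∀ i, ∀ x ∈ s i, ∃ j : ℕ, x = 2 ^ j) ∧ ∑ i, (s i).sum = n}


/-- The operator keeping the even-indexed coefficients. -/
noncomputable def U : ℤ⟦X⟧ →+ ℤ⟦X⟧ where
  toFun f := PowerSeries.mk fun n => coeff (2 * n) f
  map_zero' := by ext n; simp
  map_add' f g := by ext n; simp

theorem coeff_U (f : ℤ⟦X⟧) (n : ℕ) : coeff n (U f) = coeff (2 * n) f := by
  simp [U]

theorem U_mul_expand (f g : ℤ⟦X⟧) : U (f * expand 2 two_ne_zero g) = U f * g := by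
  ext n
  rw [coeff_U, coeff_mul, coeff_mul]
  symm
  refine Finset.sum_of_injOn (fun p : ℕ × ℕ => (2 * p.1, 2 * p.2)) ?_ ?_ ?_ ?_
  · intro a _ b _ h
    simp only [Prod.mk.injEq] at h
    ext <;> omega
  · intro a ha
    simp only [Finset.mem_coe, Finset.HasAntidiagonal.mem_antidiagonal] at ha ⊢
    omega
  · intro a ha hna
    rw [coeff_expand_of_not_dvd, mul_zero]
    intro hd
    apply hna
    rw [Finset.HasAntidiagonal.mem_antidiagonal] at ha
    obtain ⟨c, hc⟩ := hd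
    refine ⟨(n - c, c), ?_, ?_⟩
    · simp only [Finset.mem_coe, Finset.HasAntidiagonal.mem_antidiagonal]
      omega
    · ext <;> simp <;> omega
  · intro a _
    rw [coeff_U, coeff_expand_mul]

/-- The geometric series. -/
noncomputable def y : ℤ⟦X⟧ := PowerSeries.mk 1

theorem y_mul : y * (1 - X) = 1 := by
  unfold y
  exact PowerSeries.mk_one_mul_one_sub_eq_one ℤ

noncomputable def z : ℤ⟦X⟧ := X * y ^ 2

theorem Xy : X * y = y - 1 := by
  have := y_mul
  linear_combination -this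

theorem z_eq : z = y * (y - 1) := by
  unfold z
  linear_combination y * Xy

theorem X_mul_z : X * z = z - (y - 1) := by
  unfold z
  linear_combination (- X * y) * y_mul - Xy

noncomputable def v : ℤ⟦X⟧ := 2 * z
noncomputable def w : ℤ⟦X⟧ := 2 * y

theorem w_sq : w * w = 2 * v + 2 * w := by
  unfold w v
  rw [z_eq]
  ring

/-- The lattice `ℤ[2y, 2z]`. -/
noncomputable def K : Subring ℤ⟦X⟧ where
  carrier := {f | ∃ P Q : Polynomial ℤ,
    f = Polynomial.aeval v P + w * Polynomial.aeval v Q}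
  mul_mem' := by
    rintro _ _ ⟨P₁, Q₁, rfl⟩ ⟨P₂, Q₂, rfl⟩
    refine ⟨P₁ * P₂ + 2 * Polynomial.X * Q₁ * Q₂, P₁ * Q₂ + P₂ * Q₁ + 2 * Q₁ * Q₂, ?_⟩
    simp only [map_add, map_mul, Polynomial.aeval_X, map_ofNat]
    linear_combination (Polynomial.aeval v Q₁ * Polynomial.aeval v Q₂) * w_sq
  one_mem' := ⟨1, 0, by simp⟩
  add_mem' := by
    rintro _ _ ⟨P₁, Q₁, rfl⟩ ⟨P₂, Q₂, rfl⟩
    refine ⟨P₁ + P₂, Q₁ + Q₂, ?_⟩
    simp only [map_add]
    ring
  zero_mem' := ⟨0, 0, by simp⟩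
  neg_mem' := by
    rintro _ ⟨P₁, Q₁, rfl⟩
    refine ⟨-P₁, -Q₁, ?_⟩
    simp only [map_neg]
    ring

theorem mem_K {f : ℤ⟦X⟧} : f ∈ K ↔ ∃ P Q : Polynomial ℤ,
    f = Polynomial.aeval v P + w * Polynomial.aeval v Q := Iff.rfl

theorem v_mem : v ∈ K := ⟨Polynomial.X, 0, by simp⟩
theorem w_mem : w ∈ K := ⟨0, 1, by simp⟩

theorem K_decomp {f : ℤ⟦X⟧} (hf : f ∈ K) :
    ∃ a b : ℤ, ∃ g ∈ K, f = a + b * w + v * g := by
  obtain ⟨P, Q, rfl⟩ := hf
  refine ⟨P.coeff 0, Q.coeff 0,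
    Polynomial.aeval v P.divX + w * Polynomial.aeval v Q.divX, ⟨_, _, rfl⟩, ?_⟩
  have hP := congrArg (Polynomial.aeval v) (Polynomial.divX_mul_X_add P)
  have hQ := congrArg (Polynomial.aeval v) (Polynomial.divX_mul_X_add Q)
  simp only [map_add, map_mul, Polynomial.aeval_X, eq_intCast, map_intCast] at hP hQ
  linear_combination -hP - w * hQ

theorem U_X_sq_mul (f : ℤ⟦X⟧) : U (X ^ 2 * f) = X * U f := by
  have := U_mul_expand f X
  rw [expand_X] at this
  rw [mul_comm, this, mul_comm]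

theorem U_one_sub_sq (f : ℤ⟦X⟧) (k : ℕ) : U ((1 - X ^ 2) ^ k * f) = (1 - X) ^ k * U f := by
  have := U_mul_expand f ((1 - X) ^ k)
  rw [map_pow, map_sub, map_one, expand_X] at this
  rw [mul_comm, this, mul_comm]

theorem z_key : (1 - X ^ 2) ^ 2 * z ^ 2 = X ^ 2 * (1 + 4 * z) := by
  have h := y_mul
  have h2 : (1 - X) ^ 2 * z = X := by
    unfold z
    linear_combination X * (y * (1 - X) + 1) * h
  have h3 : (1 - X) ^ 2 * (1 + 4 * z) = (1 + X) ^ 2 := by
    linear_combination 4 * h2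
  have h4 : (1 - X : ℤ⟦X⟧) ^ 2 * ((1 - X ^ 2) ^ 2 * z ^ 2 - X ^ 2 * (1 + 4 * z)) = 0 := by
    linear_combination ((1 + X) ^ 2 * ((1 - X) ^ 2 * z + X)) * h2 - X ^ 2 * h3
  have h5 : y ^ 2 * ((1 - X : ℤ⟦X⟧) ^ 2 * ((1 - X ^ 2) ^ 2 * z ^ 2 - X ^ 2 * (1 + 4 * z))) = 0 := by
    rw [h4, mul_zero]
  have h6 : y ^ 2 * (1 - X) ^ 2 = (1 : ℤ⟦X⟧) := by
    rw [← mul_pow, h, one_pow]
  rw [← mul_assoc, h6, one_mul] at h5
  exact sub_eq_zero.mp h5

theorem y_pow_mul (k : ℕ) : y ^ k * (1 - X) ^ k = (1 : ℤ⟦X⟧) := by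
  rw [← mul_pow, y_mul, one_pow]

theorem U_z_sq (f : ℤ⟦X⟧) : U (z ^ 2 * f) = z * U ((1 + 4 * z) * f) := by
  have h1 : (1 - X) ^ 2 * U (z ^ 2 * f) = X * U ((1 + 4 * z) * f) := by
    rw [← U_one_sub_sq, ← U_X_sq_mul, ← mul_assoc, z_key, mul_assoc]
  have h2 := congrArg (fun t => y ^ 2 * t) h1
  rw [← mul_assoc, y_pow_mul, one_mul] at h2
  rw [h2]
  unfold z
  ring

theorem U_X_mul_expand (g : ℤ⟦X⟧) : U (X * expand 2 two_ne_zero g) = 0 := by
  have hX : U (X : ℤ⟦X⟧) = 0 := by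
    ext n
    rw [coeff_U, coeff_X]
    simp
  rw [U_mul_expand, hX, zero_mul]

theorem U_one : U 1 = 1 := by
  ext n
  rw [coeff_U, coeff_one, coeff_one]
  simp

theorem U_y : U y = y := by
  ext n
  rw [coeff_U]
  simp [y]

theorem U_z : U z = 2 * z := by
  have h : (1 - X ^ 2) ^ 2 * z = X * expand 2 two_ne_zero (1 + X) + X ^ 2 * 2 := by
    rw [map_add, map_one, expand_X]
    unfold z
    linear_combination (X * (1 + X) ^ 2 * (y * (1 - X) + 1)) * y_mul
  have h1 : (1 - X) ^ 2 * U z = X * 2 := by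
    rw [← U_one_sub_sq, h, map_add, U_X_mul_expand, U_X_sq_mul, zero_add]
    congr 1
    ext n
    rw [coeff_U]
    rw [show (2 : ℤ⟦X⟧) = C 2 from (map_ofNat C 2).symm, coeff_C, coeff_C]
    simp
  have h2 := congrArg (fun t => y ^ 2 * t) h1
  rw [← mul_assoc, y_pow_mul, one_mul] at h2
  rw [h2]
  unfold z
  ring

theorem U_two_mul (f : ℤ⟦X⟧) : U (2 * f) = 2 * U f := by
  rw [two_mul, map_add, two_mul]

theorem U_int_mul (c : ℤ) (f : ℤ⟦X⟧) : U (c * f) = c * U f := by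
  rw [← zsmul_eq_mul, map_zsmul, zsmul_eq_mul]

theorem U_yz : U (y * z) = z * (4 * y - 1) := by
  have h : (1 - X ^ 2) ^ 3 * (y * z) =
      X * expand 2 two_ne_zero (1 + 3 * X) + X ^ 2 * (expand 2 two_ne_zero (3 + X)) := by
    rw [map_add, map_one, map_mul, expand_X, map_add, expand_X, map_ofNat]
    unfold z
    linear_combination (X * (1 + X) ^ 3 * ((y * (1 - X)) ^ 2 + y * (1 - X) + 1)) * y_mul
  have h1 : (1 - X) ^ 3 * U (y * z) = X * (3 + X) := by
    rw [← U_one_sub_sq, h, map_add, U_X_mul_expand, U_X_sq_mul, zero_add]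
    congr 1
    have := U_mul_expand 1 (3 + X)
    rwa [one_mul, U_one, one_mul] at this
  have h2 := congrArg (fun t => y ^ 3 * t) h1
  rw [← mul_assoc, y_pow_mul, one_mul] at h2
  rw [h2]
  unfold z
  linear_combination (X * y ^ 2) * Xy

/-- `U` preserves `K` and contracts `z K` by a factor `2`. -/
theorem U_K {f : ℤ⟦X⟧} (hf : f ∈ K) : U f ∈ K ∧ ∃ g ∈ K, U (z * f) = 2 * z * g := by
  let S : ℤ⟦X⟧ → Prop := fun f => U f ∈ K ∧ ∃ g ∈ K, U (z * f) = 2 * z * g
  have hadd : ∀ f g, S f → S g → S (f + g) := by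
    rintro f g ⟨h1, a, ha, h2⟩ ⟨h3, b, hb, h4⟩
    refine ⟨by rw [map_add]; exact K.add_mem h1 h3, a + b, K.add_mem ha hb, ?_⟩
    rw [mul_add, map_add, h2, h4]
    ring
  have hv : ∀ f, S f → S (v * f) := by
    rintro f ⟨h1, a, ha, h2⟩
    constructor
    · have : U (v * f) = 2 * (v * a) := by
        unfold v
        rw [mul_assoc, U_two_mul, h2]
      rw [this, two_mul]
      exact K.add_mem (K.mul_mem v_mem ha) (K.mul_mem v_mem ha)
    · refine ⟨U f + 4 * (v * a), ?_, ?_⟩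
      · refine K.add_mem h1 (K.mul_mem ?_ (K.mul_mem v_mem ha))
        exact ofNat_mem K 4
      · have : z * (v * f) = 2 * (z ^ 2 * f) := by unfold v; ring
        rw [this, U_two_mul, U_z_sq, add_mul, one_mul, map_add]
        have h4 : 4 * z * f = 2 * (2 * (z * f)) := by ring
        rw [h4, U_two_mul, U_two_mul, h2]
        unfold v
        ring
  have hint : ∀ (c : ℤ) f, S f → S (c * f) := by
    rintro c f ⟨h1, a, ha, h2⟩
    refine ⟨?_, c * a, K.mul_mem (intCast_mem K c) ha, ?_⟩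
    · rw [U_int_mul]
      exact K.mul_mem (intCast_mem K c) h1
    · rw [mul_left_comm, U_int_mul, h2]
      ring
  have h1 : S 1 := by
    refine ⟨by rw [U_one]; exact K.one_mem, 1, K.one_mem, ?_⟩
    rw [mul_one, U_z, mul_one]
  have hw : S w := by
    refine ⟨?_, 2 * w - 1, ?_, ?_⟩
    · unfold w
      rw [U_two_mul, U_y]
      exact w_mem
    · refine K.sub_mem (K.mul_mem (ofNat_mem K 2) w_mem) K.one_mem
    · have : z * w = 2 * (y * z) := by unfold w; ring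
      rw [this, U_two_mul, U_yz]
      unfold w
      ring
  have hpoly : ∀ (e : ℤ⟦X⟧), S e → ∀ P : Polynomial ℤ, S (Polynomial.aeval v P * e) := by
    intro e he P
    induction P using Polynomial.induction_on with
    | C a =>
      rw [Polynomial.aeval_C, eq_intCast (algebraMap ℤ ℤ⟦X⟧) a]
      exact hint _ _ he
    | add p q hp hq =>
      rw [map_add, add_mul]
      exact hadd _ _ hp hq
    | monomial n a ih =>
      rw [pow_succ, ← mul_assoc, map_mul, Polynomial.aeval_X, mul_comm _ v, mul_assoc]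
      exact hv _ ih
  obtain ⟨P, Q, rfl⟩ := hf
  have := hadd _ _ (hpoly 1 h1 P) (hpoly w hw Q)
  rw [mul_one, mul_comm _ w] at this
  exact this

theorem coe_C' (a : ℤ) : ((Polynomial.C a : Polynomial ℤ) : ℤ⟦X⟧) = (a : ℤ⟦X⟧) := by
  rw [Polynomial.coe_C]
  exact eq_intCast _ a

/-- Multiplying `z K` by a polynomial in `X`. -/
theorem poly_mul_zK (n : ℕ) : ∀ (p : Polynomial ℤ), p.degree < ((n + 1 : ℕ) : WithBot ℕ) →
    ∀ g ∈ K, ∃ (q : Polynomial ℤ) (c : ℤ), ∃ g' ∈ K, q.degree < ((n : ℕ) : WithBot ℕ) ∧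
      (p : ℤ⟦X⟧) * (z * g) = q + c * y + z * g' := by
  induction n with
  | zero =>
    intro p hp g hg
    have hp' : p = Polynomial.C (p.coeff 0) := by
      apply Polynomial.eq_C_of_degree_le_zero
      exact Polynomial.degree_le_of_natDegree_le (by
        by_contra hne
        push Not at hne
        have h0 : p ≠ 0 := by
          rintro rfl
          simp at hne
        rw [Polynomial.degree_eq_natDegree h0] at hp
        have : p.natDegree < 1 := by exact_mod_cast hp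
        omega)
    refine ⟨0, 0, (p.coeff 0 : ℤ) * g, K.mul_mem (intCast_mem K _) hg, ?_, ?_⟩
    · simp
    · rw [hp', coe_C']
      simp only [Polynomial.coeff_C_zero, Polynomial.coe_zero, Int.cast_zero]
      ring
  | succ n ih =>
    intro p hp g hg
    have hdeg : p.divX.degree < ((n + 1 : ℕ) : WithBot ℕ) := by
      by_cases hne : p.divX = 0
      · rw [hne, Polynomial.degree_zero]
        exact WithBot.bot_lt_coe _
      · have h0 : p ≠ 0 := by
          rintro rfl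
          simp at hne
        rw [Polynomial.degree_eq_natDegree h0] at hp
        have h1 : p.natDegree < n + 1 + 1 := by exact_mod_cast hp
        rw [Polynomial.degree_eq_natDegree hne, Polynomial.natDegree_divX_eq_natDegree_tsub_one]
        have h2 : p.natDegree - 1 < n + 1 := by omega
        exact_mod_cast h2
    obtain ⟨q₁, c₁, g₁, hg₁, hq₁, heq⟩ := ih p.divX hdeg g hg
    obtain ⟨a, b, g₂, hg₂, hdec⟩ := K_decomp hg₁
    refine ⟨Polynomial.X * q₁ + Polynomial.C (a - c₁), c₁ - a,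
      g₁ - 2 * (b : ℤ⟦X⟧) - (w - 2) * g₂ + (p.coeff 0 : ℤ) * g, ?_, ?_, ?_⟩
    · refine K.add_mem (K.sub_mem (K.sub_mem hg₁ (K.mul_mem (ofNat_mem K 2) (intCast_mem K b)))
        (K.mul_mem (K.sub_mem w_mem (ofNat_mem K 2)) hg₂)) (K.mul_mem (intCast_mem K _) hg)
    · refine lt_of_le_of_lt (Polynomial.degree_add_le _ _) (max_lt ?_ ?_)
      · by_cases hq0 : q₁ = 0
        · rw [hq0, mul_zero, Polynomial.degree_zero]
          exact WithBot.bot_lt_coe _
        · rw [Polynomial.degree_mul, Polynomial.degree_X]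
          rw [Polynomial.degree_eq_natDegree hq0] at hq₁ ⊢
          have : q₁.natDegree < n := by exact_mod_cast hq₁
          have h3 : 1 + q₁.natDegree < n + 1 := by omega
          exact_mod_cast h3
      · refine lt_of_le_of_lt Polynomial.degree_C_le ?_
        have : 0 < n + 1 := Nat.succ_pos n
        exact_mod_cast this
    · have hp' := congrArg (fun t : Polynomial ℤ => (t : ℤ⟦X⟧)) (Polynomial.divX_mul_X_add p)
      simp only [Polynomial.coe_add, Polynomial.coe_mul, Polynomial.coe_X, coe_C'] at hp'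
      have hX := X_mul_z
      have hy := Xy
      have hz := z_eq
      simp only [Polynomial.coe_add, Polynomial.coe_mul, Polynomial.coe_X, coe_C',
        Int.cast_sub]
      rw [← hp']
      have hv : v = 2 * z := rfl
      have hw : w = 2 * y := rfl
      rw [hv, hw] at hdec
      rw [hw]
      linear_combination X * heq + g₁ * hX + (c₁ : ℤ⟦X⟧) * hy - (y - 1) * hdec +
        2 * (b : ℤ⟦X⟧) * hz

theorem U_coe (p : Polynomial ℤ) : U (p : ℤ⟦X⟧) = (Polynomial.contract 2 p : Polynomial ℤ) := by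
  ext n
  rw [coeff_U, Polynomial.coeff_coe, Polynomial.coeff_coe, Polynomial.coeff_contract two_ne_zero,
    mul_comm]

theorem natDegree_contract_le (p : Polynomial ℤ) (d : ℕ) (h : p.natDegree ≤ d) :
    (Polynomial.contract 2 p).natDegree ≤ d / 2 := by
  rw [Polynomial.natDegree_le_iff_coeff_eq_zero]
  intro N hN
  rw [Polynomial.coeff_contract two_ne_zero]
  apply Polynomial.coeff_eq_zero_of_natDegree_lt
  omega

theorem exists_kappa (μ : ℕ) : ∃ κ ∈ K, (1 + 4 * z) ^ (2 ^ μ) = 1 + 2 ^ (μ + 2) * (z * κ) := by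
  induction μ with
  | zero => exact ⟨1, K.one_mem, by norm_num⟩
  | succ μ ih =>
    obtain ⟨κ, hκ, h⟩ := ih
    refine ⟨κ + 2 ^ μ * (v * (κ * κ)), ?_, ?_⟩
    · exact K.add_mem hκ (K.mul_mem (K.pow_mem (ofNat_mem K 2) μ)
        (K.mul_mem v_mem (K.mul_mem hκ hκ)))
    · rw [pow_succ, pow_mul, h]
      unfold v
      ring

/-- The sequence of rational functions `Q_k`. -/
noncomputable def Q (μ : ℕ) : ℕ → ℤ⟦X⟧
  | 0 => (1 - X) ^ (2 ^ (μ + 1))
  | k + 1 => U ((1 + 4 * z) ^ (2 ^ μ) * Q μ k)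

theorem U_pow_two_mul (j : ℕ) (f : ℤ⟦X⟧) : U (2 ^ j * f) = 2 ^ j * U f := by
  have := U_int_mul (2 ^ j) f
  rwa [Int.cast_pow, Int.cast_ofNat] at this

theorem Q_form (μ k : ℕ) : ∃ (p : Polynomial ℤ) (c : ℤ), ∃ g ∈ K,
    p.natDegree ≤ 2 ^ (μ + 1) / 2 ^ k ∧
      Q μ k = p + 2 ^ (μ + 2) * (c * y) + 2 ^ (μ + 3) * (z * g) := by
  induction k with
  | zero =>
    refine ⟨(1 - Polynomial.X) ^ (2 ^ (μ + 1)), 0, 0, K.zero_mem, ?_, ?_⟩
    · rw [pow_zero, Nat.div_one]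
      refine le_trans Polynomial.natDegree_pow_le ?_
      have : (1 - Polynomial.X : Polynomial ℤ).natDegree ≤ 1 := by
        refine le_trans (Polynomial.natDegree_sub_le _ _) ?_
        simp
      calc 2 ^ (μ + 1) * (1 - Polynomial.X : Polynomial ℤ).natDegree ≤ 2 ^ (μ + 1) * 1 :=
            Nat.mul_le_mul_left _ this
        _ = 2 ^ (μ + 1) := mul_one _
    · simp [Q, Polynomial.coe_pow, Polynomial.coe_sub, Polynomial.coe_one, Polynomial.coe_X]
  | succ k ih =>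
    obtain ⟨p, c, g, hg, hd, hQ⟩ := ih
    obtain ⟨κ, hκ, hM⟩ := exists_kappa μ
    set d := 2 ^ (μ + 1) / 2 ^ k with hd_def
    have hpd : p.degree < ((d + 1 : ℕ) : WithBot ℕ) := by
      refine lt_of_le_of_lt (Polynomial.degree_le_of_natDegree_le hd) ?_
      exact_mod_cast Nat.lt_succ_self d
    obtain ⟨q, c', g', hg', hq, heq⟩ := poly_mul_zK d p hpd κ hκ
    have hMK : (1 + 4 * z) ^ (2 ^ μ) ∈ K := by
      apply K.pow_mem
      have : 1 + 4 * z = 1 + 2 * v := by unfold v; ring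
      rw [this]
      exact K.add_mem K.one_mem (K.mul_mem (ofNat_mem K 2) v_mem)
    set M := (1 + 4 * z) ^ (2 ^ μ) with hMdef
    let g₂ : ℤ⟦X⟧ := g' + 2 ^ (μ + 1) * (c * (w * κ)) + 2 * (g * M)
    have hg₂ : g₂ ∈ K := by
      refine K.add_mem (K.add_mem hg' (K.mul_mem (K.pow_mem (ofNat_mem K 2) _)
        (K.mul_mem (intCast_mem K c) (K.mul_mem w_mem hκ)))) (K.mul_mem (ofNat_mem K 2)
        (K.mul_mem hg hMK))
    obtain ⟨-, g₃, hg₃, hU⟩ := U_K hg₂
    have hMQ : M * Q μ k = ((p + Polynomial.C (2 ^ (μ + 2)) * q : Polynomial ℤ) : ℤ⟦X⟧) +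
        2 ^ (μ + 2) * (((c + c' : ℤ) : ℤ⟦X⟧) * y) + 2 ^ (μ + 2) * (z * g₂) := by
      have hw : w = 2 * y := rfl
      simp only [Polynomial.coe_add, Polynomial.coe_mul, coe_C',
        Int.cast_pow, Int.cast_ofNat, Int.cast_add, g₂, hw]
      rw [hQ]
      linear_combination ((p : ℤ⟦X⟧) + 2 ^ (μ + 2) * (c * y)) * hM + 2 ^ (μ + 2) * heq
    refine ⟨Polynomial.contract 2 (p + Polynomial.C (2 ^ (μ + 2)) * q), c + c', g₃, hg₃, ?_, ?_⟩
    · have h2 : 2 ^ (μ + 1) / 2 ^ (k + 1) = d / 2 := by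
        rw [hd_def, Nat.div_div_eq_div_mul, ← pow_succ]
      rw [h2]
      apply natDegree_contract_le
      refine le_trans (Polynomial.natDegree_add_le _ _) (max_le hd ?_)
      refine le_trans (Polynomial.natDegree_C_mul_le _ _) ?_
      exact Polynomial.natDegree_le_of_degree_le hq.le
    · change U (M * Q μ k) = _
      rw [hMQ, map_add, map_add, U_coe, U_pow_two_mul, U_int_mul, U_y, U_pow_two_mul, hU]
      ring

/-- For `k ≥ μ + 2` the difference `Q_{k+1} - Q_k` lies in `2^(k+1) z K`. -/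
theorem Q_diff (μ j : ℕ) : ∃ g ∈ K,
    Q μ (μ + 2 + j + 1) - Q μ (μ + 2 + j) = 2 ^ (μ + 3 + j) * (z * g) := by
  obtain ⟨κ, hκ, hM⟩ := exists_kappa μ
  have hMK : (1 + 4 * z) ^ (2 ^ μ) ∈ K := by
    apply K.pow_mem
    have : 1 + 4 * z = 1 + 2 * v := by unfold v; ring
    rw [this]
    exact K.add_mem K.one_mem (K.mul_mem (ofNat_mem K 2) v_mem)
  induction j with
  | zero =>
    rw [add_zero, add_zero]
    obtain ⟨p, c, g, hg, hd, hQ⟩ := Q_form μ (μ + 2)
    have hd0 : p.natDegree = 0 := by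
      have : 2 ^ (μ + 1) / 2 ^ (μ + 2) = 0 := by
        apply Nat.div_eq_of_lt
        exact Nat.pow_lt_pow_right (by norm_num) (by omega)
      omega
    obtain ⟨a, ha⟩ : ∃ a : ℤ, p = Polynomial.C a :=
      ⟨p.coeff 0, Polynomial.eq_C_of_natDegree_eq_zero hd0⟩
    rw [ha, coe_C'] at hQ
    have hκ' : κ * ((a : ℤ⟦X⟧) + 2 ^ (μ + 1) * (c * w) + 2 ^ (μ + 2) * (v * g)) ∈ K := by
      refine K.mul_mem hκ (K.add_mem (K.add_mem (intCast_mem K a)
        (K.mul_mem (K.pow_mem (ofNat_mem K 2) _) (K.mul_mem (intCast_mem K c) w_mem)))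
        (K.mul_mem (K.pow_mem (ofNat_mem K 2) _) (K.mul_mem v_mem hg)))
    obtain ⟨-, g₁, hg₁, hU₁⟩ := U_K hg
    obtain ⟨-, g₂, hg₂, hU₂⟩ := U_K hκ'
    refine ⟨2 * g₁ - g + g₂, K.add_mem (K.sub_mem (K.mul_mem (ofNat_mem K 2) hg₁) hg) hg₂, ?_⟩
    have hUQ : U (Q μ (μ + 2)) = a + 2 ^ (μ + 2) * (c * y) + 2 ^ (μ + 3) * (2 * z * g₁) := by
      rw [hQ, map_add, map_add, U_pow_two_mul, U_pow_two_mul, U_int_mul, U_y, hU₁]
      congr 2
      have := U_int_mul a 1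
      rwa [mul_one, U_one, mul_one] at this
    have hstep : Q μ (μ + 2 + 1) = U (Q μ (μ + 2)) + 2 ^ (μ + 2) * (2 * z * g₂) := by
      change U ((1 + 4 * z) ^ (2 ^ μ) * Q μ (μ + 2)) = _
      have : (1 + 4 * z) ^ (2 ^ μ) * Q μ (μ + 2) = Q μ (μ + 2) + 2 ^ (μ + 2) *
          (z * (κ * ((a : ℤ⟦X⟧) + 2 ^ (μ + 1) * (c * w) + 2 ^ (μ + 2) * (v * g)))) := by
        rw [hM]
        have hv : v = 2 * z := rfl
        have hw : w = 2 * y := rfl
        rw [hv, hw]
        linear_combination (2 ^ (μ + 2) * (z * κ)) * hQ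
      rw [this, map_add, U_pow_two_mul, hU₂]
    rw [hstep, hUQ, hQ]
    ring
  | succ j ih =>
    obtain ⟨g, hg, hD⟩ := ih
    obtain ⟨-, g₁, hg₁, hU₁⟩ := U_K (K.mul_mem hMK hg)
    refine ⟨g₁, hg₁, ?_⟩
    have h1 : Q μ (μ + 2 + (j + 1) + 1) - Q μ (μ + 2 + (j + 1)) =
        U ((1 + 4 * z) ^ (2 ^ μ) * (Q μ (μ + 2 + j + 1) - Q μ (μ + 2 + j))) := by
      rw [mul_sub, map_sub]
      rfl
    rw [h1, hD]
    have h2 : (1 + 4 * z) ^ (2 ^ μ) * (2 ^ (μ + 3 + j) * (z * g)) =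
        2 ^ (μ + 3 + j) * (z * ((1 + 4 * z) ^ (2 ^ μ) * g)) := by ring
    rw [h2, U_pow_two_mul, hU₁]
    ring

theorem U_iterate (μ : ℕ) (G : ℤ⟦X⟧)
    (hG : (1 - X) ^ (2 ^ (μ + 1)) * G = expand 2 two_ne_zero G) (k : ℕ) :
    (1 - X) ^ (2 ^ (μ + 1)) * (U^[k] G) = G * Q μ k := by
  induction k with
  | zero =>
    simp only [Q, Function.iterate_zero, id_eq]
    rw [mul_comm]
  | succ k ih =>
    rw [Function.iterate_succ_apply', ← U_one_sub_sq]
    have h1 : (1 - X ^ 2 : ℤ⟦X⟧) ^ (2 ^ (μ + 1)) =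
        (1 + X) ^ (2 ^ (μ + 1)) * (1 - X) ^ (2 ^ (μ + 1)) := by
      rw [← mul_pow]
      congr 1
      ring
    have h2 : (1 + X) ^ (2 ^ (μ + 1)) * y ^ (2 ^ (μ + 1)) = (1 + 4 * z) ^ (2 ^ μ) := by
      rw [← mul_pow, pow_succ, mul_comm (2 ^ μ) 2, pow_mul]
      congr 1
      unfold z
      linear_combination (y * (1 - X) + 1) * y_mul
    have h3 : (1 + X) ^ (2 ^ (μ + 1)) * G = (1 + 4 * z) ^ (2 ^ μ) * expand 2 two_ne_zero G := by
      rw [← hG, ← h2]
      linear_combination (-(1 + X) ^ (2 ^ (μ + 1)) * G) * y_pow_mul (2 ^ (μ + 1))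
    rw [h1, mul_assoc, ih]
    have h4 : (1 + X) ^ (2 ^ (μ + 1)) * (G * Q μ k) =
        ((1 + 4 * z) ^ (2 ^ μ) * Q μ k) * expand 2 two_ne_zero G := by
      linear_combination (Q μ k) * h3
    rw [h4, U_mul_expand, mul_comm]
    rfl

theorem coeff_U_iterate (G : ℤ⟦X⟧) (k n : ℕ) : coeff n (U^[k] G) = coeff (2 ^ k * n) G := by
  induction k generalizing n with
  | zero => simp
  | succ k ih =>
    rw [Function.iterate_succ_apply', coeff_U, ih,
      show 2 ^ (k + 1) * n = 2 ^ k * (2 * n) by ring]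

theorem main_congr (μ : ℕ) (G : ℤ⟦X⟧)
    (hG : (1 - X) ^ (2 ^ (μ + 1)) * G = expand 2 two_ne_zero G) (k n : ℕ) (hk : μ + 2 ≤ k) :
    (2 : ℤ) ^ (k + 1) ∣ coeff (2 ^ (k + 1) * n) G - coeff (2 ^ k * n) G := by
  obtain ⟨j, rfl⟩ := Nat.exists_eq_add_of_le hk
  obtain ⟨g, hg, hD⟩ := Q_diff μ j
  have h1 := U_iterate μ G hG (μ + 2 + j + 1)
  have h2 := U_iterate μ G hG (μ + 2 + j)
  have h3 : U^[μ + 2 + j + 1] G - U^[μ + 2 + j] G =
      C (2 ^ (μ + 2 + j + 1)) * (y ^ (2 ^ (μ + 1)) * G * (z * g)) := by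
    rw [map_pow, map_ofNat]
    have h4 := y_pow_mul (2 ^ (μ + 1))
    have h5 : (2 : ℤ⟦X⟧) ^ (μ + 2 + j + 1) = 2 ^ (μ + 3 + j) := by ring
    rw [h5]
    linear_combination (y ^ (2 ^ (μ + 1))) * (h1 - h2) + (y ^ (2 ^ (μ + 1)) * G) * hD -
      (U^[μ + 2 + j + 1] G - U^[μ + 2 + j] G) * h4
  have h6 := congrArg (coeff n) h3
  rw [map_sub, coeff_U_iterate, coeff_U_iterate, coeff_C_mul] at h6
  rw [h6]
  exact dvd_mul_right _ _



/-- binary partitions of `n` -/
abbrev BinPart (n : ℕ) : Type := {s : Multiset ℕ // (∀ x ∈ s, ∃ j : ℕ, x = 2 ^ j) ∧ s.sum = n}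

instance (n : ℕ) : Finite (BinPart n) := by
  apply Finite.of_injective (β := Nat.Partition n)
    (fun s => ⟨s.1, by
      intro i hi
      obtain ⟨j, rfl⟩ := s.2.1 i hi
      positivity, s.2.2⟩)
  intro s t h
  simp only [Nat.Partition.mk.injEq] at h
  exact Subtype.ext h

theorem card_zero : Nat.card (BinPart 0) = 1 := by
  rw [Nat.card_eq_one_iff_unique]
  constructor
  · constructor
    rintro ⟨s, hs, hs'⟩ ⟨t, ht, ht'⟩
    have key : ∀ s : Multiset ℕ, (∀ x ∈ s, ∃ j : ℕ, x = 2 ^ j) → s.sum = 0 → s = 0 := by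
      intro s h1 h2
      rw [Multiset.eq_zero_iff_forall_notMem]
      intro a ha
      obtain ⟨j, rfl⟩ := h1 a ha
      have := (Multiset.sum_eq_zero_iff.mp h2) _ ha
      have h3 : 0 < 2 ^ j := by positivity
      omega
    simp [key s hs hs', key t ht ht']
  · exact ⟨⟨0, by simp, by simp⟩⟩

theorem card_mem (n : ℕ) :
    Nat.card {s : BinPart (n + 1) // 1 ∈ s.1} = Nat.card (BinPart n) := by
  apply Nat.card_congr
  refine ⟨fun s => ⟨s.1.1.erase 1, ?_, ?_⟩, fun s => ⟨⟨1 ::ₘ s.1, ?_, ?_⟩, ?_⟩, ?_, ?_⟩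
  · intro x hx
    exact s.1.2.1 x (Multiset.mem_of_mem_erase hx)
  · have h1 := Multiset.sum_erase s.2
    have h2 := s.1.2.2
    omega
  · intro x hx
    rw [Multiset.mem_cons] at hx
    rcases hx with rfl | hx
    · exact ⟨0, rfl⟩
    · exact s.2.1 x hx
  · rw [Multiset.sum_cons, s.2.2, add_comm]
  · exact Multiset.mem_cons_self _ _
  · intro s
    apply Subtype.ext
    apply Subtype.ext
    exact Multiset.cons_erase s.2
  · intro s
    apply Subtype.ext
    exact Multiset.erase_cons_head _ _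

theorem pow_two_of_ne_one {x : ℕ} (h : ∃ j : ℕ, x = 2 ^ j) (hx : x ≠ 1) :
    ∃ j : ℕ, x = 2 * 2 ^ j := by
  obtain ⟨j, rfl⟩ := h
  cases j with
  | zero => exact absurd rfl hx
  | succ j => exact ⟨j, by ring⟩

theorem card_notMem_even (n : ℕ) :
    Nat.card {s : BinPart (2 * n) // 1 ∉ s.1} = Nat.card (BinPart n) := by
  apply Nat.card_congr
  refine ⟨fun s => ⟨s.1.1.map (· / 2), ?_, ?_⟩, fun s => ⟨⟨s.1.map (2 * ·), ?_, ?_⟩, ?_⟩, ?_, ?_⟩
  · intro x hx
    rw [Multiset.mem_map] at hx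
    obtain ⟨a, ha, rfl⟩ := hx
    obtain ⟨j, rfl⟩ := pow_two_of_ne_one (s.1.2.1 a ha) (fun h => s.2 (h ▸ ha))
    exact ⟨j, by simp⟩
  · have h1 : 2 * (s.1.1.map (· / 2)).sum = s.1.1.sum := by
      rw [← Multiset.sum_map_mul_left]
      conv_rhs => rw [← Multiset.map_id s.1.1]
      apply congrArg
      apply Multiset.map_congr rfl
      intro a ha
      obtain ⟨j, rfl⟩ := pow_two_of_ne_one (s.1.2.1 a ha) (fun h => s.2 (h ▸ ha))
      simp
    have h2 := s.1.2.2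
    omega
  · intro x hx
    rw [Multiset.mem_map] at hx
    obtain ⟨a, ha, rfl⟩ := hx
    obtain ⟨j, rfl⟩ := s.2.1 a ha
    exact ⟨j + 1, by ring⟩
  · rw [Multiset.sum_map_mul_left, Multiset.map_id', s.2.2]
  · intro h
    rw [Multiset.mem_map] at h
    obtain ⟨a, ha, h⟩ := h
    omega
  · intro s
    apply Subtype.ext
    apply Subtype.ext
    simp only [Multiset.map_map, Function.comp_def]
    conv_rhs => rw [← Multiset.map_id s.1.1]
    apply Multiset.map_congr rfl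
    intro a ha
    obtain ⟨j, rfl⟩ := pow_two_of_ne_one (s.1.2.1 a ha) (fun h => s.2 (h ▸ ha))
    simp
  · intro s
    apply Subtype.ext
    simp only [Multiset.map_map, Function.comp_def]
    conv_rhs => rw [← Multiset.map_id s.1]
    apply Multiset.map_congr rfl
    intro a _
    simp

theorem card_notMem_odd (n : ℕ) (hn : ¬ 2 ∣ n) :
    Nat.card {s : BinPart n // 1 ∉ s.1} = 0 := by
  rw [Nat.card_eq_zero]
  left
  constructor
  rintro ⟨s, hs⟩
  apply hn
  rw [← s.2.2]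
  apply Multiset.dvd_sum
  intro a ha
  obtain ⟨j, rfl⟩ := pow_two_of_ne_one (s.2.1 a ha) (fun h => hs (h ▸ ha))
  exact dvd_mul_right _ _

theorem card_succ (n : ℕ) : Nat.card (BinPart (n + 1)) =
    Nat.card (BinPart n) + (if 2 ∣ n + 1 then Nat.card (BinPart ((n + 1) / 2)) else 0) := by
  have h1 : Nat.card (BinPart (n + 1)) = Nat.card {s : BinPart (n + 1) // 1 ∈ s.1} +
      Nat.card {s : BinPart (n + 1) // 1 ∉ s.1} := by
    rw [← Nat.card_sum]
    exact Nat.card_congr (Equiv.sumCompl (fun s : BinPart (n + 1) => 1 ∈ s.1)).symm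
  rw [h1, card_mem]
  congr 1
  split_ifs with h
  · obtain ⟨k, hk⟩ := h
    rw [hk, card_notMem_even, Nat.mul_div_cancel_left _ (by norm_num)]
  · exact card_notMem_odd _ h

noncomputable def G₁ : ℤ⟦X⟧ := PowerSeries.mk fun n => (Nat.card (BinPart n) : ℤ)

theorem G₁_eq : (1 - X) * G₁ = expand 2 two_ne_zero G₁ := by
  ext n
  rw [sub_mul, one_mul, map_sub, coeff_expand]
  cases n with
  | zero =>
    simp [G₁]
  | succ n =>
    rw [mul_comm X, coeff_succ_mul_X]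
    simp only [G₁, coeff_mk]
    rw [card_succ]
    push_cast
    split_ifs <;> simp


theorem colouredBinary_eq (m n : ℕ) : (colouredBinary m n : ℤ) = coeff n (G₁ ^ m) := by
  have h1 : G₁ ^ m = ∏ _i : Fin m, G₁ := by simp
  rw [h1, coeff_prod]
  have h2 : colouredBinary m n = Nat.card (Σ l : (Finset.finsuppAntidiag (Finset.univ : Finset (Fin m)) n), ∀ i, BinPart (l.1 i)) := by
    unfold colouredBinary
    symm
    apply Nat.card_congr
    apply Equiv.ofBijective (fun t => (⟨fun i => (t.2 i).1, fun i => (t.2 i).2.1, by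
      refine Eq.trans ?_ (Finset.mem_finsuppAntidiag.mp t.1.2).1
      exact Finset.sum_congr rfl (fun i _ => (t.2 i).2.2)⟩ : {s : Fin m → Multiset ℕ //
        (∀ i, ∀ x ∈ s i, ∃ j : ℕ, x = 2 ^ j) ∧ ∑ i, (s i).sum = n}))
    constructor
    · rintro ⟨⟨l, hl⟩, f⟩ ⟨⟨l', hl'⟩, f'⟩ h
      simp only [Subtype.mk.injEq] at h
      have hll : l = l' := by
        ext i
        rw [← (f i).2.2, ← (f' i).2.2]
        exact congrArg Multiset.sum (congrFun h i)
      subst hll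
      have : f = f' := by
        ext1 i
        exact Subtype.ext (congrFun h i)
      rw [this]
    · rintro ⟨s, hs, hs'⟩
      refine ⟨⟨⟨Finsupp.equivFunOnFinite.symm (fun i => (s i).sum), ?_⟩,
        fun i => ⟨s i, hs i, by simp⟩⟩, rfl⟩
      simp [hs']
  rw [h2, Nat.card_sigma]
  simp_rw [Nat.card_pi]
  push_cast
  rw [Finset.sum_coe_sort (Finset.finsuppAntidiag (Finset.univ : Finset (Fin m)) n)
    (fun l => ∏ i, (Nat.card (BinPart (l i)) : ℤ))]
  simp [G₁]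


/-- A stronger congruence: for `m ≥ 1` and `k ≥ m + 1` one has
`b_{2^m}(2^(k+1) n) ≡ b_{2^m}(2^k n) (mod 2^(k+1))`. -/
theorem strong (m : ℕ) (hm : 1 ≤ m) (n k : ℕ) (hk : m + 1 ≤ k) :
    (2 : ℤ) ^ (k + 1) ∣ (colouredBinary (2 ^ m) (2 ^ (k + 1) * n) : ℤ) -
      colouredBinary (2 ^ m) (2 ^ k * n) := by
  obtain ⟨μ, rfl⟩ := Nat.exists_eq_add_of_le hm
  rw [colouredBinary_eq, colouredBinary_eq]
  apply main_congr μ
  · rw [add_comm 1 μ, ← mul_pow, G₁_eq, map_pow]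
  · omega

/-- For every `m ≥ 1`, every `n` and every `k ≥ m + 2`,
`b_{2^m}(2^(k+1) n) ≡ b_{2^m}(2^(k-1) n) (mod 2^k)`. -/
theorem result : ∀ m : ℕ, 1 ≤ m → ∀ n k : ℕ, m + 2 ≤ k →
    colouredBinary (2 ^ m) (2 ^ (k + 1) * n) ≡
      colouredBinary (2 ^ m) (2 ^ (k - 1) * n) [MOD 2 ^ k] := by
  intro m hm n k hk
  obtain ⟨j, rfl⟩ : ∃ j, k = j + 1 := ⟨k - 1, by omega⟩
  rw [Nat.add_sub_cancel]
  have h1 := strong m hm n (j + 1) (by omega)
  have h2 := strong m hm n j (by omega)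
  have h3 : (2 : ℤ) ^ (j + 1) ∣ (colouredBinary (2 ^ m) (2 ^ (j + 1 + 1) * n) : ℤ) -
      colouredBinary (2 ^ m) (2 ^ j * n) := by
    have h4 := dvd_add (dvd_trans (pow_dvd_pow 2 (Nat.le_succ (j + 1))) h1) h2
    rwa [sub_add_sub_cancel] at h4
  apply Nat.ModEq.symm
  rw [← Int.natCast_modEq_iff, Int.modEq_iff_dvd]
  push_cast
  exact h3

end Pool.Agent.Results.MP_06821b_nt.Full
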